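import Pool.Agent.H21.INS.EraBin

set_option autoImplicit false

namespace Pool.Agent.Results.MP_e0047e_lc.ErasingRulesNeeded

/-- A regular-controlled grammar: nonterminals `N`, labels `Ψ`, start symbol, the rule of each
label, and a regular control language. -/
structure RegularControlledGrammar (T : Type) where
  N : Type
  Ψ : Type
  finN : Finite N
  finΨ : Finite Ψ
  S : N
  rule : Ψ → N × List (N ⊕ T)
  Ξ : Language Ψ
  regular : Ξ.IsRegular

/-- `u ⇒ v [r]`. -/
def Rewrites {T : Type} (H : RegularControlledGrammar T) (r : H.Ψ) (u v : List (H.N ⊕ T)) : Prop :=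
  ∃ x y, u = x ++ [Sum.inl (H.rule r).1] ++ y ∧ v = x ++ (H.rule r).2 ++ y

/-- The generated language. -/
def L {T : Type} (H : RegularControlledGrammar T) : Set (List T) :=
  {w | ∃ r : List H.Ψ, r ≠ [] ∧ r ∈ H.Ξ ∧ ∃ u : ℕ → List (H.N ⊕ T), u 0 = [Sum.inl H.S] ∧
    u r.length = w.map Sum.inr ∧ ∀ i (h : i < r.length), Rewrites H r[i] (u i) (u (i + 1))}

/-- No erasing rules. -/
def Propagating {T : Type} (H : RegularControlledGrammar T) : Prop := ∀ r, (H.rule r).2 ≠ []

/-! ### Translation -/

open Pool.Agent.H51.ERA Pool.Agent.H21.INS.Era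

def e {T N : Type} : Symbol T N → N ⊕ T
  | Symbol.terminal a => Sum.inr a
  | Symbol.nonterminal A => Sum.inl A

def f {T N : Type} : N ⊕ T → Symbol T N
  | Sum.inr a => Symbol.terminal a
  | Sum.inl A => Symbol.nonterminal A

theorem ef {T N : Type} (x : N ⊕ T) : e (f x) = x := by cases x <;> rfl
theorem fe {T N : Type} (x : Symbol T N) : f (e x) = x := by cases x <;> rfl
theorem ef_map {T N : Type} (l : List (N ⊕ T)) : (l.map f).map e = l := by
  rw [List.map_map]
  conv_rhs => rw [← List.map_id l]
  exact List.map_congr_left (fun x _ => ef x)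
theorem fe_map {T N : Type} (l : List (Symbol T N)) : (l.map e).map f = l := by
  rw [List.map_map]
  conv_rhs => rw [← List.map_id l]
  exact List.map_congr_left (fun x _ => fe x)

def lb {T : Type} (H : RegularControlledGrammar T) (r : H.Ψ) : ContextFreeRule T H.N :=
  ⟨(H.rule r).1, (H.rule r).2.map f⟩

theorem rew_iff {T : Type} (H : RegularControlledGrammar T) (r : H.Ψ)
    (U V : List (Symbol T H.N)) :
    (lb H r).Rewrites U V ↔ Rewrites H r (U.map e) (V.map e) := by
  rw [ContextFreeRule.rewrites_iff]
  constructor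
  · rintro ⟨p, q, h1, h2⟩
    refine ⟨p.map e, q.map e, ?_, ?_⟩
    · rw [h1]; simp [lb, e]
    · rw [h2]; simp only [List.map_append, lb, ef_map]
  · rintro ⟨p, q, h1, h2⟩
    refine ⟨p.map f, q.map f, ?_, ?_⟩
    · have := congrArg (List.map f) h1
      rw [fe_map] at this
      rw [this]; simp [lb, f]
    · have := congrArg (List.map f) h2
      rw [fe_map] at this
      rw [this]; simp [lb]

theorem der_iff {T : Type} (H : RegularControlledGrammar T) (V : List (Symbol T H.N))
    (r : List H.Ψ) : ∀ U : List (Symbol T H.N), Der (lb H) r U V ↔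
    ∃ u : ℕ → List (H.N ⊕ T), u 0 = U.map e ∧ u r.length = V.map e ∧
      ∀ i (h : i < r.length), Rewrites H r[i] (u i) (u (i + 1)) := by
  induction r with
  | nil =>
    intro U
    constructor
    · intro h
      cases h
      exact ⟨fun _ => _, rfl, rfl, by intro i h; simp at h⟩
    · rintro ⟨u, h1, h2, _⟩
      have : U.map e = V.map e := by rw [← h1, ← h2]; rfl
      have h3 := congrArg (List.map f) this
      rw [fe_map, fe_map] at h3
      rw [h3]; exact Der.nil _
  | cons a r ih =>
    intro U
    constructor
    · intro h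
      cases h with
      | @cons _ _ _ W _ h1 h2 =>
        obtain ⟨u, h3, h4, h5⟩ := (ih W).1 h2
        refine ⟨fun i => Nat.casesOn i (U.map e) u, rfl, h4, ?_⟩
        intro i hi
        cases i with
        | zero =>
          show Rewrites H a (U.map e) (u 0)
          rw [h3]; exact (rew_iff H a U W).1 h1
        | succ i => exact h5 i (by simpa using hi)
    · rintro ⟨u, h1, h2, h3⟩
      have h4 : (lb H a).Rewrites U ((u 1).map f) := by
        rw [rew_iff, ef_map, ← h1]
        exact h3 0 (by simp)
      refine Der.cons h4 ((ih _).2 ⟨fun i => u (i + 1), by rw [ef_map], h2, ?_⟩)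
      intro i hi
      exact h3 (i + 1) (by simpa using hi)

theorem mem_L {T σ : Type} (H : RegularControlledGrammar T) (M : DFA H.Ψ σ) (hM : M.accepts = H.Ξ)
    (w : List T) : w ∈ L H ↔ LG H.S (lb H) M w := by
  have hw : (w.map Symbol.terminal).map e = (w.map Sum.inr : List (H.N ⊕ T)) := by
    rw [List.map_map]; rfl
  constructor
  · rintro ⟨r, _, h1, u, h2, h3, h4⟩
    refine ⟨r, by rw [← hM] at h1; exact h1, (der_iff H _ r _).2 ⟨u, h2, ?_, h4⟩⟩
    rw [h3, hw]
  · rintro ⟨r, h1, h2⟩
    obtain ⟨u, h3, h4, h5⟩ := (der_iff H _ r _).1 h2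
    rw [hw] at h4
    refine ⟨r, ?_, by rw [← hM]; exact h1, u, h3, h4, h5⟩
    rintro rfl
    have : u 0 = w.map Sum.inr := h4
    rw [h3] at this
    cases w with
    | nil => simp at this
    | cons a w => simp [e] at this

/-- For every finite alphabet with at least two letters there is a regular-controlled grammar whose
language is, up to the empty word, the language of no propagating regular-controlled grammar. -/
theorem result (T : Type) [Finite T] [Nontrivial T] :
    ∃ H : RegularControlledGrammar T, Function.Injective H.rule ∧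
      ∀ H' : RegularControlledGrammar T, Propagating H' →
        ¬ ∀ w : List T, w ≠ [] → (w ∈ L H' ↔ w ∈ L H) := by
  obtain ⟨a, b, hab⟩ := exists_pair_ne T
  obtain ⟨c, hc, hinj⟩ := exists_code hab
  have hk : 0 < 7 := by norm_num
  let H : RegularControlledGrammar T :=
    { N := NT, Ψ := Rl, finN := inferInstance, finΨ := inferInstance, S := NT.S
      rule := fun r => ((rulc c r).input, (rulc c r).output.map e)
      Ξ := MH.accepts
      regular := ⟨St, inferInstance, MH, rfl⟩ }
  have hlb : lb H = rulc c := by
    funext r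
    show (⟨(rulc c r).input, ((rulc c r).output.map e).map f⟩ : ContextFreeRule T NT) = rulc c r
    rw [fe_map]
  refine ⟨H, ?_, ?_⟩
  · intro r r' h
    have h' : lb H r = lb H r' := by
      unfold lb; rw [h]
    rw [hlb] at h'
    exact rulc_inj hc hk hinj h'
  · intro H' hH' h
    obtain ⟨σ', _, M', hM'⟩ := H'.regular
    have := H'.finN
    have := H'.finΨ
    refine bin_main hc hk hinj H'.S (lb H') M' ?_ ?_
    · intro r hr
      refine hH' r ?_
      exact List.map_eq_nil_iff.1 hr
    · intro v hv
      have h1 := h v hv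
      rw [mem_L H' M' hM', mem_L H MH rfl, hlb] at h1
      exact h1

end Pool.Agent.Results.MP_e0047e_lc.ErasingRulesNeeded
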